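import Pool.Agent.H7.GU.Stmts

/-!
# Board gu8, row PHB (after helper34's proof of the row LIA of the board gt7)
-/

set_option autoImplicit false

open Finset

namespace Pool.GU7

open Pool.Agent.H23.KT Pool.Agent.H46.KW Pool.KQ Pool.GT7

theorem PHB_thm (hLMB : LMB0Stmt) (hTTR : TTRStmt) : PHBStmt := by
  intro p w r hP
  have hr1 := hP.r1
  have hrp := hP.rp
  have hwp := hP.wp
  obtain ⟨K, hK, hLMB⟩ := hLMB p w r hP
  set c₁ : ℝ := ((p + 2).choose (w + 1) : ℝ) with hc₁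
  have hc₁0 : 0 ≤ c₁ := by positivity
  set K' : ℝ := (r : ℝ) * c₁ * 2 ^ (w + 1) with hK'
  have hK'0 : 0 ≤ K' := by positivity
  refine ⟨((p : ℝ) + 5) * K' + 1, by positivity, ?_⟩
  intro a ha1 V _ G W hCB hW
  obtain ⟨-, -, hlam, hLm, -, hbal⟩ := hLMB a ha1
  have haR : (1 : ℝ) ≤ a := by exact_mod_cast ha1
  have hrR : (1 : ℝ) ≤ r := by exact_mod_cast hr1
  set B : ℝ := (bal (p + 3) ((p + 3) * a + r) : ℝ) with hB
  have hB0 : 0 ≤ B := by positivity
  -- the bound of `lam * bal`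
  have hlb : lam p w r a * B ≤ K' * (a : ℝ) ^ (w + 1) := by
    have h1 : (TT (p + 2) (w + 1) a (r - 1) : ℝ) ≤ c₁ * ((a : ℝ) + 1) ^ (w + 1) := by
      have := (hTTR.2.2.1 (p + 2) (w + 1) a (r - 1) (by omega)).2
      rw [hc₁]
      exact_mod_cast this
    have h2 : ((a : ℝ) + 1) ^ (w + 1) ≤ (2 * (a : ℝ)) ^ (w + 1) :=
      pow_le_pow_left₀ (by positivity) (by linarith) _
    rw [mul_pow] at h2
    have h3 : (lam p w r a * B) * ((a : ℝ) + 1) ≤
        (K' * (a : ℝ) ^ (w + 1)) * ((a : ℝ) + 1) := by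
      have h4 : (lam p w r a * B) * ((a : ℝ) + 1) ≤
          lam p w r a * ((((p : ℝ) + 4) * a + r) * B) := by
        have h5 : (a : ℝ) + 1 ≤ ((p : ℝ) + 4) * a + r := by
          have : (0 : ℝ) ≤ (p : ℝ) * a := by positivity
          nlinarith
        have h6 : 0 ≤ lam p w r a * B := mul_nonneg hlam.le hB0
        nlinarith [mul_le_mul_of_nonneg_left h5 h6]
      have h7 : (r : ℝ) * ((a : ℝ) + 1) * TT (p + 2) (w + 1) a (r - 1) ≤
          (r : ℝ) * ((a : ℝ) + 1) * (c₁ * (2 ^ (w + 1) * (a : ℝ) ^ (w + 1))) := by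
        apply mul_le_mul_of_nonneg_left _ (by positivity)
        exact h1.trans (mul_le_mul_of_nonneg_left h2 hc₁0)
      calc (lam p w r a * B) * ((a : ℝ) + 1)
          ≤ lam p w r a * ((((p : ℝ) + 4) * a + r) * B) := h4
        _ = (r : ℝ) * ((a : ℝ) + 1) * TT (p + 2) (w + 1) a (r - 1) := hbal
        _ ≤ (r : ℝ) * ((a : ℝ) + 1) * (c₁ * (2 ^ (w + 1) * (a : ℝ) ^ (w + 1))) := h7
        _ = (K' * (a : ℝ) ^ (w + 1)) * ((a : ℝ) + 1) := by rw [hK']; ring
    exact le_of_mul_le_mul_right h3 (by positivity)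
  unfold Ph
  have hkc : (kc G W (p + 3) : ℝ) ≤ B := by
    have h1 := zyk (G := G) (p + 2) W hCB
    have h2 : kc G W (p + 3) ≤ bal (p + 3) ((p + 3) * a + r) :=
      h1.trans (bal_mono (by omega) hW)
    rw [hB]
    exact_mod_cast h2
  have hsum : ∑ L ∈ clq G W (p + 3), min (r : ℝ) (XX G p r a W L) ≤ (r : ℝ) * B := by
    calc ∑ L ∈ clq G W (p + 3), min (r : ℝ) (XX G p r a W L)
        ≤ ∑ L ∈ clq G W (p + 3), (r : ℝ) := Finset.sum_le_sum (fun L _ => min_le_left _ _)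
      _ = (r : ℝ) * (kc G W (p + 3) : ℝ) := by
          rw [Finset.sum_const, nsmul_eq_mul, kc_eq]
          ring
      _ ≤ (r : ℝ) * B := mul_le_mul_of_nonneg_left hkc (by positivity)
  have hLr : Lm p w r a * ((r : ℝ) * B) = ((p : ℝ) + 4) * (lam p w r a * B) := by
    unfold Lm
    have : (r : ℝ) ≠ 0 := by linarith
    field_simp
  have h1 : lam p w r a * (B - kc G W (p + 3)) ≤ lam p w r a * B := by
    apply mul_le_mul_of_nonneg_left _ hlam.le
    have : (0 : ℝ) ≤ (kc G W (p + 3) : ℝ) := by positivity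
    linarith
  have h2 := mul_le_mul_of_nonneg_left hsum hLm.le
  rw [hLr] at h2
  have h3 : ((p : ℝ) + 5) * (lam p w r a * B) ≤ ((p : ℝ) + 5) * (K' * (a : ℝ) ^ (w + 1)) :=
    mul_le_mul_of_nonneg_left hlb (by positivity)
  have h4 : (0 : ℝ) ≤ (a : ℝ) ^ (w + 1) := by positivity
  have h5 : (((p : ℝ) + 5) * K' + 1) * (a : ℝ) ^ (w + 1) =
      ((p : ℝ) + 5) * (K' * (a : ℝ) ^ (w + 1)) + (a : ℝ) ^ (w + 1) := by ring
  rw [h5]
  linarith

end Pool.GU7
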